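import Pool.Agent.R556.CLU.Final
import Pool.Agent.R556.CLU.K
import Pool.Agent.R556.CLU.GG
import Pool.Agent.R556.CLU.B
import Pool.Agent.R556.CLU.Chern
import Pool.Agent.R556.CLU.U
import Pool.Agent.R556.CLU.L
import Pool.Agent.R556.CLU.V
import Pool.Agent.R556.CLU.M
import Pool.Agent.R556.CLU.EE
import Pool.Agent.R556.CLU.S
import Pool.Agent.R556.CLU.T

/-!
# MP_2d2444_co: concentration of heights in random linear extensions of cluster posets

For all integers `1 ≤ a < b ≤ m` and every `ε > 0`, the probability that in a uniformly random linear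
extension of the cluster poset `P_n^{m,a,b}` all distinguished elements `X_0, ..., X_n` satisfy
`|ht(X_i) - |P_n| f((i+1)/(n+2))| ≤ ε |P_n|` tends to `1` as `n → ∞`.

Pairs `(i, j)` are 0-based: `i : Fin n` and `j : Fin m` stand for the indices `i + 1` and `j + 1`.
-/

set_option autoImplicit false

open Filter Topology

namespace Pool.Agent.Results.MP_2d2444_co.HeightConcentration

/-- The identification of `A_{i,b}` with `A_{i+1,a}`. -/
def Glue (m n a b : ℕ) (x y : Fin n × Fin m) : Prop :=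
  (y.1 : ℕ) = x.1 + 1 ∧ (x.2 : ℕ) + 1 = b ∧ (y.2 : ℕ) + 1 = a

/-- The set of elements of the cluster poset `P_n^{m,a,b}`: the pairs modulo the identifications. -/
def Elt (m n a b : ℕ) : Type := Quot (Glue m n a b)

/-- The element `A_{i+1,j+1}`. -/
def A {m n : ℕ} (a b : ℕ) (i : Fin n) (j : Fin m) : Elt m n a b := Quot.mk _ (i, j)

/-- The strict order of `P_n^{m,a,b}`: the transitive relation generated by the chains
`A_{i,1} < A_{i,2} < ... < A_{i,m}`. -/
def Below (m n a b : ℕ) : Elt m n a b → Elt m n a b → Prop :=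
  Relation.TransGen (fun x y => ∃ i : Fin n, ∃ j j' : Fin m, j < j' ∧ x = A a b i j ∧ y = A a b i j')

/-- `r` (read `r x y` as `x ≺ y`) is a linear extension of `P_n^{m,a,b}`. -/
def IsLinExt (m n a b : ℕ) (r : Elt m n a b → Elt m n a b → Prop) : Prop :=
  IsStrictTotalOrder (Elt m n a b) r ∧ ∀ x y, Below m n a b x y → r x y

/-- The height of `x`: the number of elements `y` with `y ≺ x`. -/
noncomputable def ht {m n a b : ℕ} (r : Elt m n a b → Elt m n a b → Prop) (x : Elt m n a b) : ℕ :=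
  Nat.card {y : Elt m n a b // r y x}

/-- `x` is the distinguished element `X_i`: `X_i = A_{i+1,a}` if `0 ≤ i < n`, and `X_i = A_{i,b}` if
`1 ≤ i ≤ n`. -/
def IsX (m n a b : ℕ) (i : ℕ) (x : Elt m n a b) : Prop :=
  (∃ k : Fin n, ∃ j : Fin m, (k : ℕ) = i ∧ (j : ℕ) + 1 = a ∧ x = A a b k j) ∨
    ∃ k : Fin n, ∃ j : Fin m, (k : ℕ) + 1 = i ∧ (j : ℕ) + 1 = b ∧ x = A a b k j

/-- `α = (a-1)/(b-a) + 1`. -/
noncomputable def alpha (a b : ℕ) : ℝ := ((a : ℝ) - 1) / ((b : ℝ) - a) + 1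

/-- `β = (m-b)/(b-a) + 1`. -/
noncomputable def beta (m a b : ℕ) : ℝ := ((m : ℝ) - b) / ((b : ℝ) - a) + 1

/-- `g(t) = (∫_0^t u^(α-1) (1-u)^(β-1) du) / B(α,β)` with
`B(α,β) = ∫_0^1 u^(α-1) (1-u)^(β-1) du`. -/
noncomputable def g (m a b : ℕ) (t : ℝ) : ℝ :=
  (∫ u in (0 : ℝ)..t, u ^ (alpha a b - 1) * (1 - u) ^ (beta m a b - 1)) /
    ∫ u in (0 : ℝ)..1, u ^ (alpha a b - 1) * (1 - u) ^ (beta m a b - 1)

/-- `f = g⁻¹` on `[0,1]`. -/
noncomputable def f (m a b : ℕ) : ℝ → ℝ := Function.invFunOn (g m a b) (Set.Icc 0 1)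

/-- The event: `|ht(X_i) - |P_n| f((i+1)/(n+2))| ≤ ε |P_n|` for all `0 ≤ i ≤ n`. -/
def Close (m n a b : ℕ) (ε : ℝ) (r : Elt m n a b → Elt m n a b → Prop) : Prop :=
  ∀ i ≤ n, ∀ x : Elt m n a b, IsX m n a b i x →
    |(ht r x : ℝ) - Nat.card (Elt m n a b) * f m a b (((i : ℝ) + 1) / (n + 2))| ≤
      ε * Nat.card (Elt m n a b)

/-- For all `1 ≤ a < b ≤ m` and `ε > 0`, the probability of the event `Close` for a uniformly random
linear extension of `P_n^{m,a,b}` tends to `1` as `n → ∞`. -/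
theorem result (m a b : ℕ) (ha : 1 ≤ a) (hab : a < b) (hb : b ≤ m) (ε : ℝ) (hε : 0 < ε) :
    Tendsto (fun n : ℕ =>
      (Nat.card {r : Elt m n a b → Elt m n a b → Prop // IsLinExt m n a b r ∧ Close m n a b ε r} : ℝ) /
        Nat.card {r : Elt m n a b → Elt m n a b → Prop // IsLinExt m n a b r}) atTop (𝓝 1) := by
  have hG := R556.CLU.stmG
  have hK := R556.CLU.stmK
  have hB := R556.CLU.stmB hG
  have hM := R556.CLU.stmM hG R556.CLU.stmChern (R556.CLU.stmU hK hG hB) (R556.CLU.stmL hK hG hB)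
    (R556.CLU.stmV hK hG hB)
  exact R556.CLU.main R556.CLU.stmE R556.CLU.stmS R556.CLU.stmT hM hG m a b ha hab hb ε hε

end Pool.Agent.Results.MP_2d2444_co.HeightConcentration
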